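import Mathlib
import Pool.Agent.W485.RL.Stm

/-! Project RL: the step of the construction -/

set_option autoImplicit false

open MeasureTheory Filter Topology

namespace Pool.Agent.W589.RL

open Pool.Agent.W485.RL

variable {n : ℕ}

theorem nz_nonneg (z : Fin n → ℂ) : 0 ≤ nz z := Real.sqrt_nonneg _

theorem nz_smul (t : ℂ) (z : Fin n → ℂ) : nz (t • z) = ‖t‖ * nz z := by
  unfold nz
  have : ∑ i, ‖(t • z) i‖ ^ 2 = ‖t‖ ^ 2 * ∑ i, ‖z i‖ ^ 2 := by
    rw [Finset.mul_sum]
    apply Finset.sum_congr rfl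
    intro i _
    rw [Pi.smul_apply, smul_eq_mul, norm_mul, mul_pow]
  rw [this, Real.sqrt_mul (by positivity), Real.sqrt_sq (norm_nonneg _)]

theorem ip_smul (w z : Fin n → ℂ) (t : ℂ) : ip w (t • z) = t * ip w z := by
  unfold ip
  rw [Finset.mul_sum]
  apply Finset.sum_congr rfl
  intro i _
  rw [Pi.smul_apply, smul_eq_mul]
  ring

theorem norm_ip_le (w z : Fin n → ℂ) : ‖ip w z‖ ≤ nz w * nz z := by
  unfold ip nz
  calc ‖∑ i, z i * (starRingEnd ℂ) (w i)‖ ≤ ∑ i, ‖w i‖ * ‖z i‖ := by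
        refine (norm_sum_le _ _).trans (Finset.sum_le_sum fun i _ => ?_)
        rw [norm_mul, RCLike.norm_conj, mul_comm]
    _ ≤ _ := Real.sum_mul_le_sqrt_mul_sqrt _ _ _

theorem norm_le_nz (z : Fin n → ℂ) : ‖z‖ ≤ nz z := by
  rw [pi_norm_le_iff_of_nonneg (nz_nonneg z)]
  intro i
  unfold nz
  apply Real.le_sqrt_of_sq_le
  exact Finset.single_le_sum (f := fun i => ‖z i‖ ^ 2) (fun j _ => by positivity) (Finset.mem_univ i)

theorem continuous_nz : Continuous (nz : (Fin n → ℂ) → ℝ) := by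
  unfold nz
  fun_prop

theorem differentiable_ip (w : Fin n → ℂ) : Differentiable ℂ (ip w) := by
  unfold ip
  fun_prop

theorem compact_ball (c : ℝ) : IsCompact {z : Fin n → ℂ | nz z ≤ c} := by
  apply Metric.isCompact_of_isClosed_isBounded
  · exact isClosed_le continuous_nz continuous_const
  · apply (Metric.isBounded_closedBall (x := (0 : Fin n → ℂ)) (r := c)).subset
    intro z hz
    rw [mem_closedBall_zero_iff]
    exact (norm_le_nz z).trans hz

theorem sec_mul {r γ : ℝ} (hr : 0 < r) (x : ℂ) : ((r : ℂ) * x ∈ Sec γ) ↔ x ∈ Sec γ := by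
  unfold Sec
  simp only [Set.mem_ofPred_eq, Complex.re_ofReal_mul, Complex.im_ofReal_mul, abs_mul, abs_of_pos hr]
  constructor
  · intro h
    have h2 : r * |x.im| < r * (γ * x.re) := by linarith
    exact lt_of_mul_lt_mul_left h2 hr.le
  · intro h
    have h2 := mul_lt_mul_of_pos_left h hr
    linarith

theorem prod_sub_one {ι : Type*} (s : Finset ι) (g : ι → ℂ) {e : ℝ} (he : 0 ≤ e)
    (h : ∀ w ∈ s, ‖g w - 1‖ ≤ e) : ‖∏ w ∈ s, g w - 1‖ ≤ (1 + e) ^ s.card - 1 := by
  classical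
  induction s using Finset.induction_on with
  | empty => simp
  | insert a s ha ih =>
    have h1 := ih (fun w hw => h w (Finset.mem_insert_of_mem hw))
    have h2 := h a (Finset.mem_insert_self a s)
    rw [Finset.prod_insert ha, Finset.card_insert_of_notMem ha]
    set P := ∏ w ∈ s, g w
    have h3 : ‖P‖ ≤ (1 + e) ^ s.card := by
      calc ‖P‖ = ‖(P - 1) + 1‖ := by rw [sub_add_cancel]
        _ ≤ ‖P - 1‖ + ‖(1:ℂ)‖ := norm_add_le _ _
        _ ≤ _ := by rw [norm_one]; linarith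
    calc ‖g a * P - 1‖ = ‖(g a - 1) * P + (P - 1)‖ := by congr 1; ring
      _ ≤ ‖g a - 1‖ * ‖P‖ + ‖P - 1‖ := (norm_add_le _ _).trans (by rw [norm_mul])
      _ ≤ e * (1 + e) ^ s.card + ((1 + e) ^ s.card - 1) := by
          gcongr
      _ = _ := by ring

theorem t_Step (n : ℕ) (hT : STheta) (hN : SNet n) (hM : SMeas n) : SStep n := by
  intro F a c ε η hF ha hac hε hη
  classical
  have hK := compact_ball (n := n) c
  obtain ⟨C1, hC1⟩ := hK.exists_bound_of_continuousOn hF.continuous.continuousOn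
  set C0 : ℝ := max C1 1 with hC0
  have hC0pos : 0 < C0 := lt_of_lt_of_le one_pos (le_max_right _ _)
  have hFb : ∀ z, nz z ≤ c → ‖F z‖ ≤ C0 := fun z hz => (hC1 z hz).trans (le_max_left _ _)
  obtain ⟨δ, hδ, huc⟩ := Metric.uniformContinuousOn_iff.mp
    (hK.uniformContinuousOn_of_continuous hF.continuous.continuousOn) (ε / 2) (by positivity)
  set b : ℝ := min c (a + δ / 2) with hb
  have hab : a < b := lt_min hac (by linarith)
  have hbc : b ≤ c := min_le_left _ _
  have hbpos : 0 < b := ha.trans hab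
  -- continuity near the sphere of radius a
  have hnear : ∀ z, a ≤ nz z → nz z ≤ b → ‖F z‖ ≤ ‖F (((a / nz z : ℝ) : ℂ) • z)‖ + ε / 2 := by
    intro z h1 h2
    have hz : 0 < nz z := ha.trans_le h1
    have hr : ‖(((a / nz z : ℝ)) : ℂ)‖ = a / nz z := by
      rw [Complex.norm_real, Real.norm_eq_abs, abs_of_pos (by positivity)]
    have h3 : nz ((((a / nz z : ℝ)) : ℂ) • z) = a := by
      rw [nz_smul, hr]
      field_simp
    have h4 : dist z ((((a / nz z : ℝ)) : ℂ) • z) < δ := by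
      rw [dist_eq_norm]
      have e1 : z - (((a / nz z : ℝ)) : ℂ) • z = (((1 - a / nz z : ℝ)) : ℂ) • z := by
        push_cast
        rw [sub_smul, one_smul]
      rw [e1]
      have h5 : 0 ≤ 1 - a / nz z := by
        rw [sub_nonneg, div_le_one hz]
        exact h1
      calc ‖(((1 - a / nz z : ℝ)) : ℂ) • z‖ ≤ nz ((((1 - a / nz z : ℝ)) : ℂ) • z) := norm_le_nz _
        _ = (1 - a / nz z) * nz z := by
            rw [nz_smul, Complex.norm_real, Real.norm_eq_abs, abs_of_nonneg h5]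
        _ = nz z - a := by field_simp
        _ ≤ b - a := by linarith
        _ ≤ δ / 2 := by
            have := min_le_right c (a + δ / 2)
            linarith
        _ < δ := by linarith
    have h6 := huc z (h2.trans hbc) _ (by show nz _ ≤ c; rw [h3]; exact hac.le) h4
    rw [dist_eq_norm] at h6
    have h7 := norm_sub_norm_le (F z) (F ((((a / nz z : ℝ)) : ℂ) • z))
    linarith
  set c1 : ℝ := (a + b) / (2 * b) with hc1
  have hc1lt : c1 < 1 := by
    rw [hc1, div_lt_one (by positivity)]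
    linarith
  have hc1pos : 0 < c1 := by positivity
  have hκ : 1 < c1 * b / a := by
    rw [lt_div_iff₀ ha, hc1]
    have : (a + b) / (2 * b) * b = (a + b) / 2 := by field_simp
    rw [this]
    linarith
  obtain ⟨Z, hZ1, hZ⟩ := hN c1 hc1lt
  -- the small parameter
  obtain ⟨e1, he1pos, he1N, he1C⟩ : ∃ e1 : ℝ, 0 < e1 ∧ (1 + e1) ^ Z.card - 1 ≤ min 1 (ε / (2 * C0)) ∧
      e1 ≤ ε / (2 * C0) := by
    have hcont : Tendsto (fun x : ℝ => (1 + x) ^ Z.card - 1) (𝓝[>] 0) (𝓝 0) := by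
      have h : Continuous (fun x : ℝ => (1 + x) ^ Z.card - 1) := by fun_prop
      have h2 := h.tendsto 0
      simp only [add_zero, one_pow, sub_self] at h2
      exact h2.mono_left nhdsWithin_le_nhds
    have h1 : ∀ᶠ x in 𝓝[>] (0:ℝ), (1 + x) ^ Z.card - 1 < min 1 (ε / (2 * C0)) :=
      hcont.eventually_lt_const (by positivity)
    have h2 : ∀ᶠ x in 𝓝[>] (0:ℝ), x < ε / (2 * C0) :=
      (tendsto_id.mono_left nhdsWithin_le_nhds : Tendsto id (𝓝[>] (0:ℝ)) (𝓝 0)).eventually_lt_const (by positivity)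
    have h3 : ∀ᶠ x in 𝓝[>] (0:ℝ), (0:ℝ) < x := eventually_mem_nhdsWithin
    obtain ⟨x, hx⟩ := (h1.and (h2.and h3)).exists
    exact ⟨x, hx.2.2, hx.1.le, hx.2.1.le⟩
  obtain ⟨T, hT1, hTh⟩ := hT e1 he1pos
  obtain ⟨J, hJ⟩ := pow_unbounded_of_one_lt T hκ
  have hJ0 : 0 < J := by
    rcases Nat.eq_zero_or_pos J with h | h
    · rw [h, pow_zero] at hJ
      linarith
    · exact h
  obtain ⟨γ, hγ, hBm, hBv⟩ := hM Z J hJ0 hZ1 η hη
  obtain ⟨θ, hθd, hθ1, hθ2, hθ3⟩ := hTh ((c / a) ^ J) γ hγ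
  set Th : (Fin n → ℂ) → ℂ := fun z => ∏ w ∈ Z, θ ((ip w z / a) ^ J) with hThdef
  have hThd : Differentiable ℂ Th := by
    have h : ∀ w, Differentiable ℂ (fun z : Fin n → ℂ => θ ((ip w z / a) ^ J)) := by
      intro w
      have h1 : Differentiable ℂ (fun z : Fin n → ℂ => (ip w z / (a:ℂ)) ^ J) := by
        have h3 : Differentiable ℂ (fun z : Fin n → ℂ => ip w z * (a:ℂ)⁻¹) := (differentiable_ip w).mul_const _
        simp only [div_eq_mul_inv]
        exact h3.pow J
      exact hθd.comp h1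
    rw [hThdef]
    clear_value Th
    clear hZ1 hZ he1N hBm hBv hThdef
    induction Z using Finset.induction_on with
    | empty => simp
    | insert w s hw ih =>
      simp only [Finset.prod_insert hw]
      exact (h w).mul ih
  have hnorm : ∀ w ∈ Z, ∀ z : Fin n → ℂ, ‖ip w z / (a:ℂ)‖ ≤ nz z / a := by
    intro w hw z
    rw [norm_div, Complex.norm_real, Real.norm_eq_abs, abs_of_pos ha]
    apply div_le_div_of_nonneg_right _ ha.le
    have := norm_ip_le w z
    rw [hZ1 w hw, one_mul] at this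
    exact this
  have hsec : ∀ w z : Fin n → ℂ, (ip w z / (a:ℂ)) ^ J ∈ Sec γ ↔ ip w z ^ J ∈ Sec γ := by
    intro w z
    have e : (ip w z / (a:ℂ)) ^ J = (((1 / a) ^ J : ℝ) : ℂ) * ip w z ^ J := by
      push_cast
      rw [div_eq_mul_inv, mul_pow, one_div, mul_comm]
    rw [e, sec_mul (by positivity)]
  -- outside of the bad set
  have hout : ∀ z : Fin n → ℂ, z ∉ (⋃ w ∈ Z, Bad w J γ) → nz z ≤ c → ∀ w ∈ Z, ‖θ ((ip w z / a) ^ J)‖ ≤ 1 + e1 := by
    intro z hz hzc w hw
    apply hθ2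
    · rw [norm_pow]
      apply pow_le_pow_left₀ (norm_nonneg _)
      exact (hnorm w hw z).trans (div_le_div_of_nonneg_right hzc ha.le)
    · rw [hsec]
      intro h
      exact hz (Set.mem_biUnion hw h)
  have h2 : (1 + e1) ^ Z.card ≤ 2 := by
    have := he1N.trans (min_le_left _ _)
    linarith
  have hTh2 : ∀ z : Fin n → ℂ, z ∉ (⋃ w ∈ Z, Bad w J γ) → nz z ≤ c → ‖Th z‖ ≤ 2 := by
    intro z hz hzc
    rw [hThdef]
    simp only [norm_prod]
    refine le_trans (Finset.prod_le_prod (fun _ _ => norm_nonneg _) (hout z hz hzc)) ?_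
    rw [Finset.prod_const]
    exact h2
  have hsmall : ∀ z : Fin n → ℂ, z ∉ (⋃ w ∈ Z, Bad w J γ) → b ≤ nz z → nz z ≤ c → ‖F z * Th z‖ ≤ ε := by
    intro z hz hbz hzc
    obtain ⟨w, hw, hwz⟩ := hZ z
    have h3 : ‖θ ((ip w z / a) ^ J)‖ ≤ e1 := by
      apply hθ3
      · rw [norm_pow]
        refine hJ.le.trans (pow_le_pow_left₀ (by positivity) ?_ _)
        rw [norm_div, Complex.norm_real, Real.norm_eq_abs, abs_of_pos ha]
        apply div_le_div_of_nonneg_right _ ha.le
        exact (mul_le_mul_of_nonneg_left hbz hc1pos.le).trans hwz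
      · rw [norm_pow]
        apply pow_le_pow_left₀ (norm_nonneg _)
        exact (hnorm w hw z).trans (div_le_div_of_nonneg_right hzc ha.le)
      · rw [hsec]
        intro h
        exact hz (Set.mem_biUnion hw h)
    have h4 : ‖Th z‖ ≤ e1 * 2 := by
      rw [hThdef]
      simp only [norm_prod]
      rw [← Finset.mul_prod_erase Z _ hw]
      apply mul_le_mul h3 _ (Finset.prod_nonneg fun _ _ => norm_nonneg _) he1pos.le
      have h5 : ∏ v ∈ Z.erase w, ‖θ ((ip v z / a) ^ J)‖ ≤ ∏ v ∈ Z.erase w, (1 + e1) :=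
        Finset.prod_le_prod (fun _ _ => norm_nonneg _) (fun v hv => hout z hz hzc v (Finset.mem_of_mem_erase hv))
      rw [Finset.prod_const] at h5
      refine h5.trans (le_trans ?_ h2)
      exact pow_le_pow_right₀ (by linarith) (Finset.card_le_card (Finset.erase_subset _ _))
    rw [norm_mul]
    calc ‖F z‖ * ‖Th z‖ ≤ C0 * (e1 * 2) := mul_le_mul (hFb z hzc) h4 (norm_nonneg _) hC0pos.le
      _ ≤ C0 * (ε / (2 * C0) * 2) := by gcongr
      _ = ε := by field_simp
  refine ⟨fun z => F z * Th z, ⋃ w ∈ Z, Bad w J γ, hF.mul hThd, hBm, ?_, hBv, ?_, ?_, ?_⟩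
  · intro t z ht
    simp only [Set.mem_iUnion, exists_prop]
    apply exists_congr
    intro w
    apply and_congr_right
    intro _
    unfold Bad
    simp only [Set.mem_ofPred_eq]
    rw [ip_smul, mul_pow]
    have e : ((t:ℂ)) ^ J = ((t ^ J : ℝ) : ℂ) := by push_cast; rfl
    rw [e, sec_mul (by positivity)]
  · intro z hz
    have h3 : ∀ w ∈ Z, ‖θ ((ip w z / a) ^ J) - 1‖ ≤ e1 := by
      intro w hw
      apply hθ1
      rw [norm_pow]
      apply pow_le_one₀ (norm_nonneg _)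
      refine (hnorm w hw z).trans ?_
      rw [div_le_one ha]
      exact hz
    have h4 : ‖Th z - 1‖ ≤ (1 + e1) ^ Z.card - 1 := prod_sub_one Z _ he1pos.le h3
    have h5 : ‖Th z - 1‖ ≤ ε / (2 * C0) := h4.trans (he1N.trans (min_le_right _ _))
    have e : F z * Th z - F z = F z * (Th z - 1) := by ring
    show ‖F z * Th z - F z‖ ≤ ε
    rw [e, norm_mul]
    calc ‖F z‖ * ‖Th z - 1‖ ≤ C0 * (ε / (2 * C0)) :=
          mul_le_mul (hFb z (hz.trans hac.le)) h5 (norm_nonneg _) hC0pos.le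
      _ = ε / 2 := by field_simp
      _ ≤ ε := by linarith
  · intro z hz haz hzc
    show ‖F z * Th z‖ ≤ _
    rcases le_or_gt (nz z) b with hzb | hzb
    · have h3 := hnear z haz hzb
      have h4 := hTh2 z hz hzc
      rw [norm_mul]
      have h5 : ‖F z‖ * ‖Th z‖ ≤ ‖F z‖ * 2 := mul_le_mul_of_nonneg_left h4 (norm_nonneg _)
      linarith
    · have h3 := hsmall z hz hzb.le hzc
      have h4 := norm_nonneg (F (((a / nz z : ℝ) : ℂ) • z))
      linarith
  · intro z hz hzc
    exact hsmall z hz (hzc ▸ hbc) hzc.le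

end Pool.Agent.W589.RL
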